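import Pool.Agent.Helper93.LCH.Basic2

/-!
Row DIV of the project LCH (MP_b555a2_al, helper93), typed by helper46.
-/

namespace LCH46

open LCH

universe u v

variable {K : Type u} {G : Type v} [Field K] [Group G]

/-- the subring of the values of all expressions -/
def evSub (s : Sit G) (hM : s.M = ⊤) : Subring (Module.End K (s.V K)) where
  carrier := {T | ∃ e : Ex K G, e.ev s = T}
  mul_mem' := by
    rintro _ _ ⟨a, rfl⟩ ⟨b, rfl⟩
    exact ⟨.mul a b, rfl⟩
  one_mem' := by
    refine ⟨.mono 1 1, ?_⟩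
    change (1 : K) • s.tr K 1 = 1
    rw [one_smul, tr_one]
  add_mem' := by
    rintro _ _ ⟨a, rfl⟩ ⟨b, rfl⟩
    exact ⟨.add a b, rfl⟩
  zero_mem' := by
    refine ⟨.mono 0 1, ?_⟩
    change (0 : K) • s.tr K 1 = 0
    rw [zero_smul]
  neg_mem' := by
    rintro _ ⟨a, rfl⟩
    refine ⟨.mul (.mono (-1) 1) a, ?_⟩
    change ((-1 : K) • s.tr K 1) * a.ev s = -(a.ev s)
    have h : ((-1 : K) • s.tr K 1) = (-1 : Module.End K (s.V K)) := by
      rw [tr_one]
      ext v x
      change (-1 : K) * v.1 x = -(v.1 x)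
      rw [neg_one_mul]
    rw [h]
    ext v x
    change -((a.ev s) v).1 x = -((a.ev s v).1 x)
    rfl

open Classical in
theorem st_DIV (h1 : ST_CE.{v}) (h2 : ST_SPH.{u, v}) : ST_DIV.{u, v} := by
  intro K _ G _ hLI hgood
  obtain ⟨s, hM, -⟩ := h1 G hLI ⊤ (fun _ => 0) (fun g _ h _ => by simp)
  have hmem : ∀ g : G, g ∈ s.M := fun g => by rw [hM]; exact Subgroup.mem_top g
  have hunit : ∀ x : evSub (K := K) s hM, IsUnit x ∨ x = 0 := by
    rintro ⟨_, e, rfl⟩
    rcases hgood e (fun g _ => Subgroup.mem_top g) with hz | hn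
    · right
      apply Subtype.ext
      exact hz s (fun g _ => hmem g)
    · left
      have hu : IsUnit (e.ev s) := h2 K G s _ (hn s (fun g _ => hmem g))
      have e1 : e.ev s * (Ex.inv e).ev s = 1 := by
        change e.ev s * Ring.inverse (e.ev s) = 1
        exact Ring.mul_inverse_cancel _ hu
      have e2 : (Ex.inv e).ev s * e.ev s = 1 := by
        change Ring.inverse (e.ev s) * e.ev s = 1
        exact Ring.inverse_mul_cancel _ hu
      exact ⟨⟨⟨e.ev s, e, rfl⟩, ⟨(Ex.inv e).ev s, Ex.inv e, rfl⟩,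
        Subtype.ext e1, Subtype.ext e2⟩, rfl⟩
  have hnt : Nontrivial (evSub (K := K) s hM) := inferInstance
  let F : G →* Module.End K (s.V K) :=
    { toFun := fun g => s.tr K g
      map_one' := tr_one
      map_mul' := fun g h => (tr_mul (hmem g) (hmem h)).symm }
  let Φ : MonoidAlgebra K G →ₐ[K] Module.End K (s.V K) := MonoidAlgebra.lift K _ G F
  have hΦ : ∀ a : MonoidAlgebra K G, Φ a = a.coeff.sum fun g c => c • s.tr K g := by
    intro a
    exact MonoidAlgebra.lift_apply F a
  have hΦm : ∀ a : MonoidAlgebra K G, Φ.toRingHom a ∈ evSub (K := K) s hM := by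
    intro a
    change Φ a ∈ _
    rw [hΦ]
    unfold Finsupp.sum
    refine Subring.sum_mem _ ?_
    intro g _
    exact ⟨.mono (a.coeff g) g, rfl⟩
  refine ⟨evSub (K := K) s hM, DivisionRing.ofIsUnitOrEqZero hunit,
    Φ.toRingHom.codRestrict (evSub (K := K) s hM) hΦm, ?_⟩
  intro a b hab
  have hab' : Φ a = Φ b := congrArg Subtype.val hab
  have key : ∀ (a : MonoidAlgebra K G) (x : G), (Φ a (dl K s 1 (hmem 1))).1 x = a.coeff x := by
    intro a x
    rw [hΦ]
    unfold Finsupp.sum
    rw [LinearMap.sum_apply, Submodule.coe_sum, Finset.sum_apply]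
    have h3 : ∀ g ∈ a.coeff.support, (((a.coeff g • s.tr K g) (dl K s 1 (hmem 1)) : s.V K) : G → K) x =
        if g = x then a.coeff g else 0 := by
      intro g _
      change a.coeff g * (s.tr K g (dl K s 1 (hmem 1))).1 x = _
      rw [tr_apply (hmem g)]
      by_cases hgx : g = x
      · rw [if_pos hgx, hgx, inv_mul_cancel, dl_self, mul_one]
      · rw [if_neg hgx, dl_ne, mul_zero]
        intro h
        apply hgx
        exact inv_mul_eq_one.1 h
    rw [Finset.sum_congr rfl h3, Finset.sum_ite_eq']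
    by_cases hx : x ∈ a.coeff.support
    · rw [if_pos hx]
    · rw [if_neg hx]
      exact (Finsupp.notMem_support_iff.1 hx).symm
  apply MonoidAlgebra.coeff_injective
  ext x
  rw [← key a x, ← key b x, hab']

end LCH46
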