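import Pool.Agent.Helper93.LCH.Stmts

/-!
Row FIN of the project LCH (MP_b555a2_al, helper93), typed by helper46.
-/

namespace LCH46

open LCH

universe u v

theorem st_FIN (h1 : ST_MAI.{u, v}) (h2 : ST_DIV.{u, v}) : ST_FIN.{u, v} := by
  intro K _ G _ hLI hno
  have key : ∀ C : {C : Subgroup G // C.FG ∧ C ≠ ⊥ ∧ Rk1 C ∧ ¬ OreK K C},
      Good K (Ker C.1) := by
    have hw : WellFounded (fun C' C : {C : Subgroup G // C.FG ∧ C ≠ ⊥ ∧ Rk1 C ∧ ¬ OreK K C} =>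
        C'.1 ≤ Ker C.1) := by
      rw [wellFounded_iff_isEmpty_descending_chain]
      refine ⟨?_⟩
      rintro ⟨f, hf⟩
      apply hno
      refine ⟨fun n => (f n).1, fun n => ?_⟩
      exact ⟨(f n).2.1, (f n).2.2.1, (f n).2.2.2.1, (f n).2.2.2.2, hf n⟩
    intro C
    refine hw.induction (C := fun C => Good K (Ker C.1)) C ?_
    intro C ih
    exact h1 K G hLI (Ker C.1) (fun C' hle hfg hne hr ho => ih ⟨C', hfg, hne, hr, ho⟩ hle)
  refine h2 K G hLI ?_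
  exact h1 K G hLI ⊤ (fun C _ hfg hne hr ho => key ⟨C, hfg, hne, hr, ho⟩)

end LCH46
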