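import Pool.Agent.Helper93.LCH.Stmts

/-!
Row MAI of the project LCH (MP_b555a2_al, helper93), typed by helper46.
-/

namespace LCH46

open LCH

universe u v

theorem st_MAI (h1 : ST_MEA) (h2 : ST_CST.{u, v, 1}) (h3 : ST_HBV.{u, v, 1}) :
    ST_MAI.{u, v} := by
  intro K _ G _ hLI X hC
  obtain ⟨T, ⟨inst⟩⟩ := h1
  have key : ∀ κ : T, ∀ e : Ex K G, (∀ g ∈ e.supp, g ∈ X) → e.meas T = κ → Pack X e := by
    intro κ
    have hw : WellFounded (MSys.lt : T → T → Prop) := MSys.wf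
    refine hw.induction (C := fun κ => ∀ e : Ex K G, (∀ g ∈ e.supp, g ∈ X) →
      e.meas T = κ → Pack X e) κ ?_
    intro κ ih
    have hIH : IH K T X κ := fun e he hlt => ih (e.meas T) hlt e he rfl
    intro e he hm
    have hc := h2 K G T hLI X hC κ hIH e he hm
    exact ⟨hc, fun L χ ψ hL hχ hψ hs => h3 K G T hLI X κ hIH e hm hc L χ ψ hL hχ hψ hs⟩
  intro e he
  exact (key _ e he rfl).1

end LCH46
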